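import Pool.Agent.Helper76.DE.StL

/-!
# Project PRD, module Eqz: the integral is nearly constant in `y` (base point `z`)
-/

set_option autoImplicit false

noncomputable section

namespace Pool.Agent.Helper47.PRD

open Pool.Agent.Helper76.ND Pool.Agent.Helper76.DE Finset

theorem eqz_aux (hPr : StPr) (hFw : StFwz) (hLi : StLiz) (hEr : StErz) (hMn : StMnz)
    (hSd : StSd) : ∃ x0 C : ℝ, 3 ≤ x0 ∧ 0 < C ∧ ∀ (z x y : ℝ) (B : ℕ) (f : ℕ → ℝ), x0 ≤ x →
      YZ z x y → (∀ N, 0 ≤ f N ∧ f N ≤ 1) → (B : ℝ) ≤ z * x → Inv B f →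
      |II y f - JJz z x ⌈Real.log x ^ (1 / 8 : ℝ)⌉₊ f| ≤ C * Real.log x ^ (-(1 / 1600) : ℝ) := by
  obtain ⟨x1, hx13, hP⟩ := hPr
  obtain ⟨x2, C1, hx23, hC1, hFw⟩ := hFw
  obtain ⟨x3, C2, hx33, hC2, hLi⟩ := hLi
  obtain ⟨x4, C4, hx43, hC4, hMn⟩ := hMn
  obtain ⟨C3, hC3, hSd⟩ := hSd
  refine ⟨max (max (max x1 x2) (max x3 x4)) (Real.exp 65536),
    C1 + C2 + 15 * (15 / 2 * C3 + 12) + C4, ?_, by positivity, ?_⟩
  · exact le_trans hx13 (le_trans (le_max_left _ _) (le_trans (le_max_left _ _) (le_max_left _ _)))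
  intro z x y B f hx hZ hf hB hI
  obtain ⟨hz1, hY⟩ := id hZ
  have hxx1 : x1 ≤ x := le_trans (le_trans (le_max_left _ _) (le_trans (le_max_left _ _)
    (le_max_left _ _))) hx
  have hxx2 : x2 ≤ x := le_trans (le_trans (le_max_right _ _) (le_trans (le_max_left _ _)
    (le_max_left _ _))) hx
  have hxx3 : x3 ≤ x := le_trans (le_trans (le_max_left _ _) (le_trans (le_max_right _ _)
    (le_max_left _ _))) hx
  have hxx4 : x4 ≤ x := le_trans (le_trans (le_max_right _ _) (le_trans (le_max_right _ _)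
    (le_max_left _ _))) hx
  have hxe : Real.exp 65536 ≤ x := le_trans (le_max_right _ _) hx
  have hx0 : 0 < x := lt_of_lt_of_le (Real.exp_pos _) hxe
  have hLb : 65536 ≤ Real.log x := (Real.le_log_iff_exp_le hx0).2 hxe
  obtain ⟨p1, p2, p3, p4, p5, p6, p7, p8, p9, p10, p11, p12, p13, p14⟩ := hP x (y / z) hxx1 hY
  have hx3 : 3 ≤ x := le_trans hx13 hxx1
  have hz0 : 0 < z := by linarith
  have hyz0 : 0 < y / z := by linarith
  have hy0 : 0 < y := by
    have := mul_pos hyz0 hz0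
    rwa [div_mul_cancel₀ _ hz0.ne'] at this
  have hyz : y / z ≤ y := div_le_self hy0.le hz1
  have hT : tz z x y = t1 x (y / z) := rfl
  set L := Real.log x with hL
  have hL0 : 0 < L := by linarith
  set v := L ^ (1 / 8 : ℝ) with hv
  have hv0 : 0 < v := Real.rpow_pos_of_pos hL0 _
  have hv8 : v ^ 8 = L := by
    rw [hv, ← Real.rpow_natCast, ← Real.rpow_mul hL0.le]; norm_num
  have hv4 : 4 ≤ v := by
    by_contra hcon
    push Not at hcon
    have : v ^ 8 < 4 ^ 8 := pow_lt_pow_left₀ hcon hv0.le (by norm_num)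
    rw [hv8] at this
    norm_num at this
    linarith
  set w := L ^ (-(1 / 1600) : ℝ) with hw
  have hw0 : 0 < w := Real.rpow_pos_of_pos hL0 _
  set m := ⌈v⌉₊ with hm
  have hm1 : v ≤ m := Nat.le_ceil v
  have hm2 : (m : ℝ) ≤ 2 * v := by
    have := Nat.ceil_lt_add_one hv0.le
    linarith
  have hm0 : 1 ≤ m := by
    have : (1 : ℝ) ≤ m := by linarith
    exact_mod_cast this
  have hLw : ∀ e : ℝ, e ≤ -(1 / 1600) → L ^ e ≤ w := by
    intro e he
    exact Real.rpow_le_rpow_of_exponent_le p1 he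
  have hLinv : 1 / L ^ 2 ≤ w := by
    have h1 := hLw (-2) (by norm_num)
    rw [Real.rpow_neg hL0.le, ← one_div] at h1
    exact_mod_cast h1
  have h3m : (3 : ℝ) ^ m ≤ x ^ (1 / 2000 : ℝ) := by
    have h1 : (m : ℝ) * Real.log 3 ≤ 1 / 2000 * L := by
      have hl3 : Real.log 3 ≤ 11 / 10 := by
        have := Real.log_three_lt_d9
        linarith
      have hl30 : 0 ≤ Real.log 3 := Real.log_nonneg (by norm_num)
      have h2 : (m : ℝ) * Real.log 3 ≤ 2 * v * (11 / 10) :=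
        mul_le_mul hm2 hl3 hl30 (by positivity)
      have h3 : (4 : ℝ) ^ 7 ≤ v ^ 7 := pow_le_pow_left₀ (by norm_num) hv4 7
      have h4 : L = v ^ 7 * v := by rw [← hv8]; ring
      have h5 : (4 : ℝ) ^ 7 * v ≤ v ^ 7 * v := mul_le_mul_of_nonneg_right h3 hv0.le
      rw [h4]
      norm_num at h5
      linarith
    rw [← Real.log_le_log_iff (by positivity) (Real.rpow_pos_of_pos hx0 _), Real.log_pow,
      Real.log_rpow hx0]
    exact h1
  have h32 : (3 : ℝ) ^ m * 2 ^ (tz z x y) ≤ y := by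
    have h1 : (3 : ℝ) ^ m * 2 ^ (tz z x y) ≤ x ^ (1 / 2000 : ℝ) * x ^ (1 / 4 : ℝ) :=
      mul_le_mul h3m p5 (by positivity) (Real.rpow_pos_of_pos hx0 _).le
    rw [← Real.rpow_add hx0] at h1
    have h2 : x ^ (1 / 2000 + 1 / 4 : ℝ) ≤ x := by
      conv_rhs => rw [← Real.rpow_one x]
      exact Real.rpow_le_rpow_of_exponent_le (by linarith) (by norm_num)
    linarith
  have e1 := hFw z x y B f hxx2 hZ hf hB hI
  have e2 := hLi z x y f hxx3 hZ hf
  have e3 := hEr z x y m f (by linarith) hz1 hy0 hf h32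
  have e4 := hMn z x y m f hxx4 hZ hf h3m
  have e5 := hSd m (tz z x y) hm0
  rw [← hL] at e1 e2 e3 e4
  -- first
  have f1 : |II y f - Awz z x y f| ≤ C1 * w :=
    le_trans e1 (mul_le_mul_of_nonneg_left (hLw _ (by norm_num)) hC1.le)
  have f2 : |Awz z x y f - Agz z x y f| ≤ C2 * w := by
    refine le_trans e2 ?_
    rw [div_eq_mul_one_div]
    exact mul_le_mul_of_nonneg_left hLinv hC2.le
  have f4 : |Amz z x y m f - JJz z x m f| ≤ C4 * w := by
    refine le_trans e4 ?_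
    rw [div_eq_mul_one_div]
    exact mul_le_mul_of_nonneg_left hLinv hC4.le
  -- third
  have hrho : 0 < rho := by linarith
  have g1 : rho / (L / 100) ≤ 15 / L := by
    have : rho / (L / 100) = 100 * rho / L := by field_simp
    rw [this]
    exact div_le_div_of_nonneg_right (by linarith) hL0.le
  have hmr : (m : ℝ) ^ (-(1 / 200) : ℝ) ≤ w := by
    have h1 : (m : ℝ) ^ (-(1 / 200) : ℝ) ≤ v ^ (-(1 / 200) : ℝ) :=
      Real.rpow_le_rpow_of_nonpos hv0 hm1 (by norm_num)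
    refine le_trans h1 (le_of_eq ?_)
    rw [hv, ← Real.rpow_mul hL0.le, hw]
    norm_num
  have hsq : Real.sqrt (tz z x y : ℝ) ≤ v ^ 4 := by
    have h1 : Real.sqrt (tz z x y : ℝ) ≤ Real.sqrt L := by
      rw [hT]
      exact Real.sqrt_le_sqrt (by linarith)
    refine le_trans h1 (le_of_eq ?_)
    rw [← hv8]
    rw [show v ^ 8 = (v ^ 4) ^ 2 by ring]
    exact Real.sqrt_sq (by positivity)
  have ht1L : (tz z x y : ℝ) ≤ L := by
    rw [hT]
    linarith
  have a1 : (m : ℝ) ≤ 2 * (L * w) := by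
    have h1 := hLw (-(7 / 8)) (by norm_num)
    have h2 : v = L * L ^ (-(7 / 8) : ℝ) := by
      have : L * L ^ (-(7 / 8) : ℝ) = L ^ (1 : ℝ) * L ^ (-(7 / 8) : ℝ) := by rw [Real.rpow_one]
      rw [this, ← Real.rpow_add hL0, hv]
      norm_num
    have h3 : v ≤ L * w := by
      conv_lhs => rw [h2]
      exact mul_le_mul_of_nonneg_left h1 hL0.le
    linarith
  have g2 : C3 * ((m : ℝ) + (tz z x y : ℝ) * (m : ℝ) ^ (-(1 / 200) : ℝ) +
      (m : ℝ) * Real.sqrt (tz z x y : ℝ)) ≤ C3 * (5 * (L * w)) := by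
    apply mul_le_mul_of_nonneg_left _ hC3.le
    have a2 : (tz z x y : ℝ) * (m : ℝ) ^ (-(1 / 200) : ℝ) ≤ L * w :=
      mul_le_mul ht1L hmr (Real.rpow_nonneg (Nat.cast_nonneg _) _) hL0.le
    have a3 : (m : ℝ) * Real.sqrt (tz z x y : ℝ) ≤ 2 * (L * w) := by
      have h1 := hLw (-(3 / 8)) (by norm_num)
      have h2 : v * v ^ 4 = L * L ^ (-(3 / 8) : ℝ) := by
        have : L * L ^ (-(3 / 8) : ℝ) = L ^ (1 : ℝ) * L ^ (-(3 / 8) : ℝ) := by rw [Real.rpow_one]
        rw [this, ← Real.rpow_add hL0]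
        rw [show v * v ^ 4 = v ^ 5 by ring, hv, ← Real.rpow_natCast, ← Real.rpow_mul hL0.le]
        norm_num
      have h3 : v * v ^ 4 ≤ L * w := by
        rw [h2]
        exact mul_le_mul_of_nonneg_left h1 hL0.le
      have h4 : (m : ℝ) * Real.sqrt (tz z x y : ℝ) ≤ 2 * v * v ^ 4 :=
        mul_le_mul hm2 hsq (Real.sqrt_nonneg _) (by positivity)
      linarith
    linarith
  have hSS0 : ∑ t ∈ range (tz z x y + 1), ∑ k ∈ Icc m t, Del m k t ≤ C3 * (5 * (L * w)) :=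
    le_trans e5 g2
  have f3 : |Agz z x y f - Amz z x y m f| ≤ 15 * (15 / 2 * C3 + 12) * w := by
    refine le_trans e3 ?_
    have h1 : 3 / 2 * ∑ t ∈ range (tz z x y + 1), ∑ k ∈ Icc m t, Del m k t + 6 * (m : ℝ) ≤
        (15 / 2 * C3 + 12) * (L * w) := by
      have h9 : 3 / 2 * ∑ t ∈ range (tz z x y + 1), ∑ k ∈ Icc m t, Del m k t ≤
          3 / 2 * (C3 * (5 * (L * w))) := mul_le_mul_of_nonneg_left hSS0 (by norm_num)
      have h10 : 3 / 2 * (C3 * (5 * (L * w))) = 15 / 2 * C3 * (L * w) := by ring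
      have h11 : (15 / 2 * C3 + 12) * (L * w) = 15 / 2 * C3 * (L * w) + 12 * (L * w) := by ring
      linarith
    have hnn : 0 ≤ (15 / 2 * C3 + 12) * (L * w) := by positivity
    calc rho / (L / 100) *
        (3 / 2 * ∑ t ∈ range (tz z x y + 1), ∑ k ∈ Icc m t, Del m k t + 6 * (m : ℝ)) ≤
        rho / (L / 100) * ((15 / 2 * C3 + 12) * (L * w)) :=
          mul_le_mul_of_nonneg_left h1 (by positivity)
      _ ≤ 15 / L * ((15 / 2 * C3 + 12) * (L * w)) := mul_le_mul_of_nonneg_right g1 hnn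
      _ = 15 * (15 / 2 * C3 + 12) * w := by field_simp
  have htot : II y f - JJz z x m f = (II y f - Awz z x y f) + (Awz z x y f - Agz z x y f) +
      (Agz z x y f - Amz z x y m f) + (Amz z x y m f - JJz z x m f) := by ring
  rw [htot]
  have t1' := abs_add_le ((II y f - Awz z x y f) + (Awz z x y f - Agz z x y f) +
      (Agz z x y f - Amz z x y m f)) (Amz z x y m f - JJz z x m f)
  have t2' := abs_add_le ((II y f - Awz z x y f) + (Awz z x y f - Agz z x y f))
    (Agz z x y f - Amz z x y m f)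
  have t3' := abs_add_le (II y f - Awz z x y f) (Awz z x y f - Agz z x y f)
  have hfin : (C1 + C2 + 15 * (15 / 2 * C3 + 12) + C4) * w =
    C1 * w + C2 * w + 15 * (15 / 2 * C3 + 12) * w + C4 * w := by ring
  rw [hfin]
  linarith

theorem hEqz (hPr : StPr) (_hPo : StPo) (hFwz : StFwz) (hLiz : StLiz) (hErz : StErz)
    (hMnz : StMnz) (hSd : StSd) : StEqz := by
  obtain ⟨x0, C, hx03, hC, hmain⟩ := eqz_aux hPr hFwz hLiz hErz hMnz hSd
  refine ⟨x0, 2 * C, hx03, by positivity, ?_⟩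
  intro z x y y' B f hx hY hY' hf hB hI
  have h1 := hmain z x y B f hx hY hf hB hI
  have h2 := hmain z x y' B f hx hY' hf hB hI
  have h3 : II y f - II y' f = (II y f - JJz z x ⌈Real.log x ^ (1 / 8 : ℝ)⌉₊ f) -
    (II y' f - JJz z x ⌈Real.log x ^ (1 / 8 : ℝ)⌉₊ f) := by ring
  rw [h3]
  refine le_trans (abs_sub _ _) ?_
  linarith

end Pool.Agent.Helper47.PRD
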